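import Pool.Agent.W312.WT.Stm

set_option autoImplicit false

namespace Pool.Agent.W828.WT

open Pool.Agent.W312.WT

lemma rd_map {α β : Type} (F : α → β) (θ φ : ℝ) (j : ℕ) (a b : α) :
    F (rd θ φ j a b) = rd θ φ j (F a) (F b) := by
  unfold rd
  split_ifs <;> rfl

theorem proof_SRnd : SRnd := by
  intro hDu hAvg hLin hRna p n S x w d hp hS hd hx
  obtain ⟨dn, up, hDU⟩ := hDu p S hp hS
  have h01 : ∀ j, 0 ≤ posi dn up (x (j + 1)) ∧ posi dn up (x (j + 1)) ≤ 1 := fun j =>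
    ⟨(hLin S dn up 0 _ hDU hS.zero).1, (hLin S dn up 0 _ hDU hS.zero).2.1⟩
  obtain ⟨θ, hθ0, hθ1, hθ⟩ := hAvg n
    (fun j => (w j : ℝ) * max 0 ((dn (x (j + 1)) : ℝ) - d j))
    (fun j => (w j : ℝ) * max 0 ((up (x (j + 1)) : ℝ) - d j))
    (fun j => posi dn up (x (j + 1))) h01
  obtain ⟨a1, a2, a3, a4⟩ := hRna p n S dn up x θ hp hS hDU hx hθ0 hθ1
    (fun j => rd θ (posi dn up (x j)) j (dn (x j)) (up (x j))) (fun _ => rfl)
  refine ⟨_, a1, a2, a3, a4, ?_⟩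
  have e1 : ∑ j ∈ Finset.range n, (w j : ℝ) *
      max 0 (((rd θ (posi dn up (x (j + 1))) (j + 1) (dn (x (j + 1))) (up (x (j + 1))) : ℤ) : ℝ)
        - d j)
      = ∑ j ∈ Finset.range n, rd θ (posi dn up (x (j + 1))) (j + 1)
        ((w j : ℝ) * max 0 ((dn (x (j + 1)) : ℝ) - d j))
        ((w j : ℝ) * max 0 ((up (x (j + 1)) : ℝ) - d j)) := by
    refine Finset.sum_congr rfl fun j _ => ?_
    exact rd_map (fun z : ℤ => (w j : ℝ) * max 0 ((z : ℝ) - d j)) _ _ _ _ _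
  have e2 : ∑ j ∈ Finset.range n, ((1 - posi dn up (x (j + 1))) *
        ((w j : ℝ) * max 0 ((dn (x (j + 1)) : ℝ) - d j)) + posi dn up (x (j + 1)) *
        ((w j : ℝ) * max 0 ((up (x (j + 1)) : ℝ) - d j)))
      = ∑ j ∈ Finset.range n, (w j : ℝ) * max 0 (x (j + 1) - d j) := by
    refine Finset.sum_congr rfl fun j hj => ?_
    have h := (hLin S dn up (d j : ℤ) (x (j + 1)) hDU (hd j (Finset.mem_range.1 hj))).2.2
    have h' : max 0 (x (j + 1) - (d j : ℝ)) = (1 - posi dn up (x (j + 1))) *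
        max 0 ((dn (x (j + 1)) : ℝ) - d j) +
        posi dn up (x (j + 1)) * max 0 ((up (x (j + 1)) : ℝ) - d j) := by
      simpa using h
    rw [h']
    ring
  rw [← e2]
  refine le_trans (le_of_eq ?_) hθ
  exact e1

end Pool.Agent.W828.WT
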